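import Pool.Agent.N637.SLX.Stm2
import Pool.Agent.N916.GB.Tr

/-!
# Project SLX: the class of `m` is in the radical
-/

set_option autoImplicit false
set_option linter.all false

open scoped Classical

namespace Pool.Agent.N637.SLX

open Finset
open Pool.Agent.N916.GB (Po Vt sy z2 z2_add_self z2_sq nr_recip sum_uu)
open Pool.Agent.Y703.CQ (nr)
open Pool.Agent.N973.ND (uu)
open Pool.Agent.N637.P21 (Cls)

/-- the support of `m` -/
def wv (r : ZMod 2) (p : ℕ) : ZMod 2 := if p = 2 then r else 1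

/-- the signs -/
noncomputable def uv (s : ZMod 2) (p : ℕ) : ZMod 2 := if p = 2 then s else uu p

lemma mem_vt {t : Bool} {S : Finset ℕ} {p : ℕ} (h : p ∈ Vt t S) : p = 2 ∨ p ∈ S := by
  unfold Vt at h
  split_ifs at h with ht
  · exact Finset.mem_insert.1 h
  · exact Or.inr h

lemma rec_sy {t : Bool} {r s : ZMod 2} {S : Finset ℕ} (hS : ∀ p ∈ S, Po p) {p q : ℕ}
    (hp : p ∈ Vt t S) (hq : q ∈ Vt t S) (hne : p ≠ q) :
    wv r p * sy r s p q + wv r q * sy r s q p = uv s p * uv s q := by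
  have h2 : ∀ x : ZMod 2, x + x = 0 := z2_add_self
  rcases mem_vt hp with rfl | hp'
  · have hq' : q ∈ S := (mem_vt hq).resolve_left (Ne.symm hne)
    have hq2 := (hS q hq').2
    unfold wv uv sy
    rw [if_pos rfl, if_neg hq2, if_neg hq2, if_pos rfl, if_pos rfl, if_neg hq2, one_mul, ← add_assoc,
      h2, zero_add]
  · have hp2 := (hS p hp').2
    rcases mem_vt hq with rfl | hq'
    · unfold wv uv sy
      rw [if_neg hp2, if_pos rfl, if_pos rfl, if_neg hp2, if_neg hp2, if_pos rfl, one_mul,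
        add_comm, ← add_assoc, h2, zero_add, mul_comm]
    · have hq2 := (hS q hq').2
      unfold wv uv sy
      rw [if_neg hp2, if_neg hq2, if_neg hq2, if_neg hp2, if_neg hp2, if_neg hq2, one_mul, one_mul,
        add_comm, nr_recip (hS p hp') (hS q hq') hne]

lemma two_notMem {S : Finset ℕ} (hS : ∀ p ∈ S, Po p) : 2 ∉ S := fun h => (hS 2 h).2 rfl

lemma sum_vt {S : Finset ℕ} (hS : ∀ p ∈ S, Po p) (t : Bool) (f : ℕ → ZMod 2) :
    ∑ p ∈ Vt t S, f p = (if t = true then f 2 else 0) + ∑ p ∈ S, f p := by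
  unfold Vt
  split_ifs with h
  · rw [Finset.sum_insert (two_notMem hS)]
  · rw [zero_add]

lemma sum_uv {t : Bool} {r s : ZMod 2} {S : Finset ℕ} {m : ℤ} (h : Ty t r s S m) :
    ∑ p ∈ Vt t S, uv s p = 1 := by
  rw [sum_vt h.po]
  have e : ∑ p ∈ S, uv s p = ∑ p ∈ S, uu p :=
    Finset.sum_congr rfl fun p hp => if_neg (h.po p hp).2
  have h4 := sum_uu S h.po
  rw [e]
  have e2 : uv s 2 = s := if_pos rfl
  rcases h.ty with ⟨rfl, rfl, hm, hm4⟩ | ⟨rfl, rfl, rfl, hm, hm4⟩ | ⟨rfl, rfl, rfl, hm, hm4⟩ |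
    ⟨rfl, rfl, rfl, hm, hm4⟩
  · rw [if_neg (by decide), zero_add]
    rcases z2 (∑ p ∈ S, uu p) with h0 | h0
    · rw [if_pos h0] at h4
      omega
    · exact h0
  · rw [if_pos rfl, e2]
    rcases z2 (∑ p ∈ S, uu p) with h0 | h0
    · rw [h0, add_zero]
    · rw [h0, if_neg (by decide)] at h4
      omega
  · rw [if_pos rfl, e2]
    rcases z2 (∑ p ∈ S, uu p) with h0 | h0
    · rw [h0, add_zero]
    · rw [h0, if_neg (by decide)] at h4
      omega
  · rw [if_pos rfl, e2]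
    rcases z2 (∑ p ∈ S, uu p) with h0 | h0
    · rw [if_pos h0] at h4
      omega
    · rw [h0, zero_add]

theorem lk_w {t : Bool} {r s : ZMod 2} {S : Finset ℕ} {m : ℤ} (h : Ty t r s S m) :
    IsLk (NS t r s S) fun p => wv r p.1 := by
  intro p
  have h2 : ∀ x : ZMod 2, x + x = 0 := z2_add_self
  have e1 : ∀ q : {x : ℕ // x ∈ Vt t S}, wv r q.1 * NS t r s S q p + wv r p.1 * NS t r s S p q =
      uv s p.1 * uv s q.1 + if q = p then uv s p.1 else 0 := by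
    intro q
    by_cases hqp : q = p
    · subst hqp
      rw [if_pos rfl, h2]
      rcases z2 (uv s q.1) with h0 | h0 <;> rw [h0] <;> decide
    · rw [if_neg hqp, add_zero, add_comm]
      exact rec_sy h.po p.2 q.2 fun h' => hqp (Subtype.ext h'.symm)
  show ∑ q : {x : ℕ // x ∈ Vt t S}, (wv r q.1 * NS t r s S q p + wv r p.1 * NS t r s S p q) = 0
  rw [Finset.sum_congr rfl fun q _ => e1 q, Finset.sum_add_distrib, ← Finset.mul_sum,
    Finset.sum_ite_eq' univ p, if_pos (Finset.mem_univ p)]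
  have e3 : ∑ q : {x : ℕ // x ∈ Vt t S}, uv s q.1 = 1 := by
    rw [Finset.sum_coe_sort (Vt t S) (uv s)]
    exact sum_uv h
  rw [e3, mul_one, h2]

lemma nr7 (n : ℕ) : nr 7 n = if n % 7 = 0 ∨ n % 7 = 1 ∨ n % 7 = 2 ∨ n % 7 = 4 then 0 else 1 := by
  have e : (n : ZMod 7) = ((n % 7 : ℕ) : ZMod 7) := by rw [ZMod.natCast_mod]
  have hlt : n % 7 < 7 := Nat.mod_lt _ (by norm_num)
  unfold Pool.Agent.Y703.CQ.nr
  rw [e]
  generalize n % 7 = k at hlt
  have key : ∀ k : ℕ, k < 7 → (IsSquare ((k : ℕ) : ZMod 7) ↔ (k = 0 ∨ k = 1 ∨ k = 2 ∨ k = 4)) := by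
    decide
  have := key k hlt
  by_cases h : k = 0 ∨ k = 1 ∨ k = 2 ∨ k = 4
  · rw [if_pos h, if_pos (this.2 h)]
  · rw [if_neg h, if_neg fun h' => h (this.1 h')]

lemma sum_nr7 (S : Finset ℕ) (hS : ∀ p ∈ S, p % 7 ≠ 0) : (∏ p ∈ S, p) % 7 ≠ 0 ∧
    ∑ p ∈ S, nr 7 p = nr 7 (∏ p ∈ S, p) := by
  induction S using Finset.induction_on with
  | empty =>
    rw [prod_empty, sum_empty, nr7]
    exact ⟨by norm_num, by norm_num⟩
  | insert a S ha ih =>
    obtain ⟨i1, i2⟩ := ih fun p hp => hS p (mem_insert_of_mem hp)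
    have ha7 := hS a (mem_insert_self a S)
    rw [prod_insert ha, sum_insert ha, i2]
    generalize ∏ p ∈ S, p = P at i1
    rw [nr7, nr7, nr7, Nat.mul_mod]
    have h1 : a % 7 < 7 := Nat.mod_lt _ (by norm_num)
    have h2 : P % 7 < 7 := Nat.mod_lt _ (by norm_num)
    generalize a % 7 = x at *
    generalize P % 7 = y at *
    have key : ∀ x : ℕ, x < 7 → ∀ y : ℕ, y < 7 → x ≠ 0 → y ≠ 0 → (x * y % 7 ≠ 0 ∧
      ((if x = 0 ∨ x = 1 ∨ x = 2 ∨ x = 4 then (0 : ZMod 2) else 1) +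
        (if y = 0 ∨ y = 1 ∨ y = 2 ∨ y = 4 then (0 : ZMod 2) else 1) =
        if x * y % 7 = 0 ∨ x * y % 7 = 1 ∨ x * y % 7 = 2 ∨ x * y % 7 = 4 then (0 : ZMod 2)
        else 1)) := by decide
    have := key x h1 y h2 ha7 i1
    refine ⟨this.1, ?_⟩
    convert this.2

lemma eS_of_ne {t : Bool} {r s : ZMod 2} {S : Finset ℕ} {p : ℕ} (hp : p ≠ 7) :
    eS t r s S p = nr 7 p := if_neg hp

/-- `7` divides `m`: the labels give the equation at `7` -/
theorem sum_e7 {t : Bool} {r s : ZMod 2} {S : Finset ℕ} {m : ℤ} (h : Ty t r s S m)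
    (h7 : 7 ∈ S) (y : {x : ℕ // x ∈ Vt t S} → ZMod 2) (hy : IsLk (NS t r s S) y) :
    ∑ q, ES t r s S q * y q = 0 := by
  have h7v : 7 ∈ Vt t S := by
    unfold Vt
    split_ifs
    · exact Finset.mem_insert_of_mem h7
    · exact h7
  have h0 := hy ⟨7, h7v⟩
  have n77 : sy r s 7 7 = 0 := by
    unfold sy
    rw [if_neg (by norm_num), nr7, if_pos (Or.inl (by norm_num))]
  rw [← h0, Finset.sum_add_distrib, ← Finset.mul_sum]
  have e1 : ∀ q : {x : ℕ // x ∈ Vt t S}, ES t r s S q * y q = y q * NS t r s S q ⟨7, h7v⟩ +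
      if q = ⟨7, h7v⟩ then y q * eS t r s S 7 else 0 := by
    intro q
    by_cases hq : q = ⟨7, h7v⟩
    · subst hq
      rw [if_pos rfl]
      show eS t r s S 7 * y _ = y _ * sy r s 7 7 + _
      rw [n77, mul_zero, zero_add, mul_comm]
    · rw [if_neg hq, add_zero]
      have hq7 : q.1 ≠ 7 := fun h' => hq (Subtype.ext h')
      show eS t r s S q.1 * y q = y q * sy r s q.1 7
      rw [eS_of_ne hq7, mul_comm]
      unfold sy
      rw [if_neg (by norm_num)]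
  rw [Finset.sum_congr rfl fun q _ => e1 q, Finset.sum_add_distrib,
    Finset.sum_ite_eq' univ (⟨7, h7v⟩ : {x : ℕ // x ∈ Vt t S}), if_pos (Finset.mem_univ _)]
  congr 1
  congr 1
  unfold eS
  rw [if_pos rfl]
  have e2 : ∑ q : {x : ℕ // x ∈ Vt t S}, NS t r s S ⟨7, h7v⟩ q = ∑ q ∈ Vt t S, sy r s 7 q :=
    Finset.sum_coe_sort (Vt t S) (sy r s 7)
  rw [e2, ← Finset.add_sum_erase (Vt t S) (sy r s 7) h7v, n77, zero_add]

/-- `7` does not divide `m`: the sum of the labels is `1` -/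
theorem sum_e {t : Bool} {r s : ZMod 2} {S : Finset ℕ} {m : ℤ} (h : Ty t r s S m)
    (h7 : 7 ∉ S) : ∑ q, ES t r s S q = 1 := by
  have e2 : ∑ q : {x : ℕ // x ∈ Vt t S}, ES t r s S q = ∑ q ∈ Vt t S, eS t r s S q :=
    Finset.sum_coe_sort (Vt t S) (eS t r s S)
  rw [e2, sum_vt h.po]
  have h22 : eS t r s S 2 = 0 := by
    rw [eS_of_ne (by norm_num), nr7, if_pos (by norm_num)]
  rw [h22, ite_self, zero_add]
  have e3 : ∑ p ∈ S, eS t r s S p = ∑ p ∈ S, nr 7 p := by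
    refine Finset.sum_congr rfl fun p hp => eS_of_ne ?_
    rintro rfl
    exact h7 hp
  have hmod : ∀ p ∈ S, p % 7 ≠ 0 := by
    intro p hp h0
    have h1 : 7 ∣ p := Nat.dvd_of_mod_eq_zero h0
    have h2 := (Nat.prime_dvd_prime_iff_eq (by norm_num : Nat.Prime 7) (h.po p hp).1).1 h1
    exact h7 (h2 ▸ hp)
  obtain ⟨h1, h2⟩ := sum_nr7 S hmod
  rw [e3, h2, nr7]
  have h5 := h.cl.m7
  have h6 : m % 7 ≠ 0 := by
    intro h0
    have h8 : (∏ p ∈ S, p) % 7 = 0 := by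
      rcases h.ty with ⟨-, -, hm, -⟩ | ⟨-, -, -, hm, -⟩ | ⟨-, -, -, hm, -⟩ | ⟨-, -, -, hm, -⟩ <;>
        omega
    exact h1 h8
  have h9 : (∏ p ∈ S, p) % 7 = 3 ∨ (∏ p ∈ S, p) % 7 = 5 ∨ (∏ p ∈ S, p) % 7 = 6 := by
    rcases h.ty with ⟨-, -, hm, -⟩ | ⟨-, -, -, hm, -⟩ | ⟨-, -, -, hm, -⟩ | ⟨-, -, -, hm, -⟩ <;>
      omega
  refine if_neg ?_
  omega

lemma seven_cases {t : Bool} {S : Finset ℕ} (h : 7 ∈ S) : 7 ∈ Vt t S := by
  unfold Vt
  split_ifs
  · exact Finset.mem_insert_of_mem h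
  · exact h

/-- the class of `m` is in the radical -/
theorem rad_w {t : Bool} {r s : ZMod 2} {S : Finset ℕ} {m : ℤ} (h : Ty t r s S m) :
    IsRad (NS t r s S) (ES t r s S) fun p => wv r p.1 := by
  refine ⟨lk_w h, fun z hz => ?_⟩
  have e22 : eS t r s S 2 = 0 := by
    rw [eS_of_ne (by norm_num), nr7, if_pos (by norm_num)]
  have e1 : ∀ p : {x : ℕ // x ∈ Vt t S}, ES t r s S p * wv r p.1 = ES t r s S p := by
    intro p
    show eS t r s S p.1 * wv r p.1 = eS t r s S p.1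
    by_cases hp : p.1 = 2
    · rw [hp, e22, zero_mul]
    · unfold wv
      rw [if_neg hp, mul_one]
  unfold Bf
  rw [Finset.sum_congr rfl fun p _ => e1 p]
  have e2 : ∑ p : {x : ℕ // x ∈ Vt t S}, ES t r s S p * wv r p.1 * z p =
      ∑ p : {x : ℕ // x ∈ Vt t S}, ES t r s S p * z p :=
    Finset.sum_congr rfl fun p _ => by rw [e1 p]
  rw [e2]
  by_cases h7 : 7 ∈ S
  · rw [sum_e7 h h7 z hz, mul_zero, add_zero]
  · rw [sum_e h h7, one_mul, z2_add_self]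

/-- there is an odd ramified prime -/
theorem ex_odd {t : Bool} {r s : ZMod 2} {S : Finset ℕ} {m : ℤ} (h : Ty t r s S m) : ∃ p, p ∈ S := by
  by_contra h0
  have hS : S = ∅ := Finset.eq_empty_of_forall_notMem fun p hp => h0 ⟨p, hp⟩
  subst hS
  have h5 := h.cl.m7
  rcases h.ty with ⟨-, -, hm, -⟩ | ⟨-, -, -, hm, -⟩ | ⟨-, -, -, hm, -⟩ | ⟨-, -, -, hm, -⟩ <;>
    rw [Finset.prod_empty] at hm <;> omega

theorem w_ne {t : Bool} {r s : ZMod 2} {S : Finset ℕ} {m : ℤ} (h : Ty t r s S m) :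
    (fun p : {x : ℕ // x ∈ Vt t S} => wv r p.1) ≠ 0 := by
  obtain ⟨p, hp⟩ := ex_odd h
  have hpv : p ∈ Vt t S := by
    unfold Vt
    split_ifs
    · exact Finset.mem_insert_of_mem hp
    · exact hp
  intro h0
  have h1 := congrFun h0 ⟨p, hpv⟩
  have h2 : wv r p = 1 := if_neg (h.po p hp).2
  have h3 : wv r p = 0 := h1
  rw [h2] at h3
  exact one_ne_zero h3

end Pool.Agent.N637.SLX
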