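import Pool.Agent.N637.SLX.Stm2

/-!
# Project SLX (helper637): the criterion in terms of norms
-/

set_option autoImplicit false
set_option linter.unusedVariables false

open scoped Classical

namespace Pool.Agent.N637.SLX

open Finset
open Pool.Agent.N916.GB (Vt)

/-- `a` is of the form `x² - b y²` in `ℚ_p` -/
def Nm (p : ℕ) (a b : ℤ) : Prop := ∀ [Fact p.Prime], ∃ x y : ℚ_[p], (a : ℚ_[p]) = x ^ 2 - b * y ^ 2

/-- the squarefree divisors of `n` which are norms from `ℚ_p(√-n)` for all the odd `p ∣ n` -/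
def Dn (n d : ℕ) : Prop := Squarefree d ∧ d ∣ n ∧ ∀ p : ℕ, p.Prime → p ≠ 2 → p ∣ n → Nm p d (-n)

/-- the symbol `(-7, n)_p` -/
noncomputable def ep (n p : ℕ) : ZMod 2 := if Nm p (-7) n then 0 else 1

/-- the alternating form -/
noncomputable def fm (n d d' : ℕ) : ZMod 2 :=
  (∑ p ∈ d.primeFactors, ep n p) * (∑ p ∈ d'.primeFactors, ep n p) +
    ∑ p ∈ (d.gcd d').primeFactors, ep n p

/-- the radical -/
def Rn (n d : ℕ) : Prop := Dn n d ∧ ∀ d' : ℕ, Dn n d' → fm n d d' = 0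

/-- SLX-HIL: the translation of the left kernel and of the form. -/
def S_HIL : Prop := ∀ (t : Bool) (r s : ZMod 2) (S : Finset ℕ) (m : ℤ) (n : ℕ), Ty t r s S m →
  ((n : ℤ) = if t = true then -4 * m else -m) →
  Nat.card {d : ℕ // Dn n d} =
    Nat.card {y : {x : ℕ // x ∈ Vt t S} → ZMod 2 // IsLk (NS t r s S) y} ∧
  Nat.card {d : ℕ // Rn n d} =
    Nat.card {y : {x : ℕ // x ∈ Vt t S} → ZMod 2 // IsRad (NS t r s S) (ES t r s S) y}

end Pool.Agent.N637.SLX
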