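import Pool.Agent.N637.SLX.Stm
import Pool.Agent.N637.P21.Loc
import Pool.Agent.TH841.SH.ShaDef
import Pool.Agent.N916.AM.Fd

/-!
# Project SLX (helper637): the arithmetic parts

`E_m : y² = x (x - 9 m) (x + 7 m)`, the twist of `X_0(21)` by `m`, `m < 0` squarefree, `3` not split and `7` not
inert in `ℚ(√m)`. `S` is the set of the odd prime divisors of `m`, `Vt t S` the set of the ramified primes (with
`2` if `t`), `sy r s q p` the symbol of the prime discriminant of `p` at `q`.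
-/

set_option autoImplicit false
set_option linter.unusedVariables false

open scoped Classical

namespace Pool.Agent.N637.SLX

open Finset Filter Topology NumberField
open Pool.Agent.N916.GB (ps sx pt Po Vt sy)
open Pool.Agent.N916.AM (LAH)
open Pool.Agent.N916.TE (FD)
open Pool.Agent.Y703.CQ (nr)
open Pool.Agent.N637.P21 (Cls)
open Pool.Agent.TH841.SH (SelG LocC IsR)
open Pool.Agent.TH841.SH.D (Sha)

/-- the label of the prime `p`: the symbol `(-7, -m)_p` -/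
noncomputable def eS (t : Bool) (r s : ZMod 2) (S : Finset ℕ) (p : ℕ) : ZMod 2 :=
  if p = 7 then ∑ q ∈ (Vt t S).erase 7, sy r s 7 q else nr 7 p

/-- the matrix of the symbols -/
noncomputable def NS (t : Bool) (r s : ZMod 2) (S : Finset ℕ) (q p : {x : ℕ // x ∈ Vt t S}) : ZMod 2 :=
  sy r s q.1 p.1

/-- the labels -/
noncomputable def ES (t : Bool) (r s : ZMod 2) (S : Finset ℕ) (p : {x : ℕ // x ∈ Vt t S}) : ZMod 2 :=
  eS t r s S p.1

/-- the criterion for the set `S` -/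
def GjS (t : Bool) (r s : ZMod 2) (a b : ℕ) (S : Finset ℕ) : Prop := Crit (NS t r s S) (ES t r s S) a b

/-- SLX-RED: the criterion satisfies the hypothesis of the machine. -/
def S_RED : Prop := S_LAJ → ∀ M : ℕ, 8 ∣ M → 7 ∣ M → 0 < M → ∀ (t : Bool) (r s : ZMod 2)
  (K : Finset ℕ), (t = false → s = 0) → (t = true → r ≠ 0 ∨ s ≠ 0) →
  (∀ a ∈ K, a % 4 = if s = 0 then 3 else 1) →
  (∀ a ∈ K, a % 7 = 0 ∨ a % 7 = 3 ∨ a % 7 = 5 ∨ a % 7 = 6) → ∀ a b : ℕ,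
  LAH M K (GjS t r s a b) (law a b)

/-- the family: `-n` is a fundamental discriminant, `3` is not split, `7` is not inert in `ℚ(√-n)` -/
def Fam0 (n : ℕ) : Prop := FD n ∧ n % 3 ≠ 2 ∧ (n % 7 = 0 ∨ n % 7 = 3 ∨ n % 7 = 5 ∨ n % 7 = 6)

/-- the criterion for `n` -/
def Gn (a b n : ℕ) : Prop := (n % 2 = 1 → GjS false 0 0 a b n.primeFactors) ∧
  (∀ M : ℕ, n = 4 * M → M % 4 = 1 → GjS true 0 1 a b M.primeFactors) ∧
  (∀ M : ℕ, n = 8 * M → M % 4 = 1 → GjS true 1 1 a b M.primeFactors) ∧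
  ∀ M : ℕ, n = 8 * M → M % 4 = 3 → GjS true 1 0 a b M.primeFactors

/-- SLX-DEN: the natural density of the criterion in the family. -/
def S_DEN : Prop := S_LAJ → S_RED → ∀ a b : ℕ, Tendsto (fun X : ℕ =>
  (((Icc 1 X).filter fun n => Fam0 n ∧ Gn a b n).card : ℝ) / (((Icc 1 X).filter fun n => Fam0 n).card : ℝ))
  atTop (𝓝 (law a b))

/-- `S` is the set of the odd prime divisors of `m`, `(t, r, s)` is the type of the discriminant -/
structure Ty (t : Bool) (r s : ZMod 2) (S : Finset ℕ) (m : ℤ) : Prop where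
  po : ∀ p ∈ S, Po p
  cl : Cls m
  ty : (t = false ∧ s = 0 ∧ m = -(((∏ p ∈ S, p : ℕ)) : ℤ) ∧ m % 4 = 1) ∨
    (t = true ∧ r = 0 ∧ s = 1 ∧ m = -(((∏ p ∈ S, p : ℕ)) : ℤ) ∧ m % 4 = 3) ∨
    (t = true ∧ r = 1 ∧ s = 1 ∧ m = -(2 * (((∏ p ∈ S, p : ℕ)) : ℤ)) ∧ (∏ p ∈ S, p) % 4 = 1) ∨
    (t = true ∧ r = 1 ∧ s = 0 ∧ m = -(2 * (((∏ p ∈ S, p : ℕ)) : ℤ)) ∧ (∏ p ∈ S, p) % 4 = 3)

/-- the linear system for the first coordinate -/
def Rw {V : Type} [Fintype V] (N : V → V → ZMod 2) (e x y : V → ZMod 2) : Prop :=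
  ∀ p, ∑ q, (x q + x p) * N p q = e p * y p + e p * ∑ q, e q * y q

/-- SLX-LIN: the number of the solutions of the two systems. -/
def S_LIN : Prop := ∀ (V : Type) [Fintype V] (N : V → V → ZMod 2) (e : V → ZMod 2),
  (univ.filter fun z : (V → ZMod 2) × (V → ZMod 2) => IsLk N z.2 ∧ Rw N e z.1 z.2).card =
    (univ.filter fun y : V → ZMod 2 => IsLk N y).card *
      (univ.filter fun y : V → ZMod 2 => IsRad N e y).card

/-- the prime discriminant of `p` up to squares, for the type `(t, r, s)`: `-1`, `2`, `-2` at `p = 2` -/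
def pdr (r s : ZMod 2) (p : ℕ) : ℤ :=
  if p = 2 then (if s = 0 then 2 else if r = 0 then -1 else -2) else if p % 4 = 1 then p else -p

/-- the first coordinate -/
def dX (t : Bool) (r s : ZMod 2) (S : Finset ℕ) (x : {x : ℕ // x ∈ Vt t S} → ZMod 2) (j : ZMod 2) : ℤ :=
  (∏ p : {x : ℕ // x ∈ Vt t S}, if x p = 1 then pdr r s p.1 else 1) * (if j = 1 then -7 else 1)

/-- the second coordinate -/
def dY (t : Bool) (S : Finset ℕ) (y : {x : ℕ // x ∈ Vt t S} → ZMod 2) : ℤ :=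
  ∏ p : {x : ℕ // x ∈ Vt t S}, if y p = 1 then ((p.1 : ℕ) : ℤ) else 1

/-- SLX-NEC: the Selmer classes satisfy the linear systems. -/
def S_NEC : Prop := ∀ (t : Bool) (r s : ZMod 2) (S : Finset ℕ) (m : ℤ), Ty t r s S m →
  ∀ z ∈ SelG 0 (9 * m) (-7 * m), ∃ x y : {x : ℕ // x ∈ Vt t S} → ZMod 2, IsLk (NS t r s S) y ∧
    Rw (NS t r s S) (ES t r s S) x y ∧
    z = (dX t r s S x (∑ q, ES t r s S q * y q), dY t S y)

/-- SLX-SUF: the solutions of the linear systems are Selmer classes. -/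
def S_SUF : Prop := ∀ (t : Bool) (r s : ZMod 2) (S : Finset ℕ) (m : ℤ), Ty t r s S m →
  ∀ x y : {x : ℕ // x ∈ Vt t S} → ZMod 2, IsLk (NS t r s S) y →
    Rw (NS t r s S) (ES t r s S) x y →
    (dX t r s S x (∑ q, ES t r s S q * y q), dY t S y) ∈ SelG 0 (9 * m) (-7 * m)

/-- SLX-INJ: the coordinates determine the vectors. -/
def S_INJ : Prop := ∀ (t : Bool) (r s : ZMod 2) (S : Finset ℕ) (m : ℤ), Ty t r s S m →
  ∀ x y x' y' : {x : ℕ // x ∈ Vt t S} → ZMod 2,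
    dX t r s S x (∑ q, ES t r s S q * y q) = dX t r s S x' (∑ q, ES t r s S q * y' q) →
    dY t S y = dY t S y' → x = x' ∧ y = y'

/-- SLX-LT: the classes of the points of order two are in the local images (over any field of
characteristic zero over which the trivial class is represented by a point with `y ≠ 0`). -/
def S_LT : Prop := ∀ (K : Type) [Field K] [CharZero K] (m : ℤ), m ≠ 0 →
  (∃ x y : K, y ≠ 0 ∧ y ^ 2 = x * (x - 9 * m) * (x + 7 * m) ∧ IsSquare x ∧ IsSquare (x - 9 * m) ∧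
    IsSquare (x + 7 * m)) →
  (∀ d1 d2 : ℤ, d1 ≠ 0 → d2 ≠ 0 →
    (IsSquare (d2 : K) ∧ (IsSquare (d1 : K) ∨ IsSquare ((d1 : K) * m))) ∨
      (IsSquare ((d2 : K) * (-m)) ∧ (IsSquare ((d1 : K) * (-7)) ∨ IsSquare ((d1 : K) * (-7 * m)))) →
    LocC K 0 (9 * m) (-7 * m) d1 d2) ∧
  ∀ d1 d2 d3 d4 : ℤ, d1 ≠ 0 → d2 ≠ 0 → d3 ≠ 0 → d4 ≠ 0 → LocC K 0 (9 * m) (-7 * m) d1 d2 →
    LocC K 0 (9 * m) (-7 * m) d3 d4 → LocC K 0 (9 * m) (-7 * m) (d1 * d3) (d2 * d4)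

/-- SLX-LG: the places of good reduction, and `3`, `7` if they do not divide `m`. -/
def S_LG : Prop := ∀ (m : ℤ), Cls m → ∀ (p : ℕ) [Fact p.Prime], p ≠ 2 → ¬ (p : ℤ) ∣ m →
  ∀ d1 d2 : ℤ, Squarefree d1 → Squarefree d2 → (p ≠ 7 → ¬ (p : ℤ) ∣ d1) → ¬ (p : ℤ) ∣ d2 →
  (p = 7 → ((7 : ℤ) ∣ d1 ↔ jacobiSym d2 7 = -1)) → LocC ℚ_[p] 0 (9 * m) (-7 * m) d1 d2

/-- SLX-LA: the place `2`, `m = 1 mod 4`; the real place. -/
def S_LA : Prop := ∀ (m : ℤ), Cls m → ∀ d1 d2 : ℤ, Squarefree d1 → Squarefree d2 →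
  (m % 4 = 1 → d1 % 4 = 1 → d2 % 2 = 1 → LocC ℚ_[2] 0 (9 * m) (-7 * m) d1 d2) ∧
  (0 < d2 → LocC ℝ 0 (9 * m) (-7 * m) d1 d2)

/-- SLX-LB: the place `2`, `m` not `1 mod 4`. -/
def S_LB : Prop := ∀ (m : ℤ), Cls m → m % 4 ≠ 1 → ∀ d1 d2 : ℤ, Squarefree d1 → Squarefree d2 →
  (IsSquare (d1 : ℚ_[2]) ∨ IsSquare ((d1 : ℚ_[2]) * m)) →
  (∃ x y : ℚ_[2], (d2 : ℚ_[2]) = x ^ 2 - m * y ^ 2) → LocC ℚ_[2] 0 (9 * m) (-7 * m) d1 d2

/-- SLX-HR: the reciprocity law: a positive divisor of `2 m` which is a norm from `ℚ_p(√m)` for all the odd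
`p ∣ m` is a norm from `ℚ_2(√m)`. -/
def S_HR : Prop := ∀ (m : ℤ), Squarefree m → m < 0 → ∀ d : ℤ, Squarefree d → 0 < d → d ∣ 2 * m →
  (∀ (p : ℕ) [Fact p.Prime], p ≠ 2 → (p : ℤ) ∣ m →
    IsSquare (d : ℚ_[p]) ∨ IsSquare ((d : ℚ_[p]) * (-m))) →
  (m % 4 = 1 → d % 2 = 1) → ∃ x y : ℚ_[2], (d : ℚ_[2]) = x ^ 2 - m * y ^ 2

/-- SLX-SELQ: the 2-descent over `ℚ`, with the rank. -/
def S_SELQ : Prop := ∀ (W : WeierstrassCurve ℚ) (a b c : ℤ), a ≠ b → a ≠ c → b ≠ c →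
  IsR W (a : ℚ) (b : ℚ) (c : ℚ) → (SelG a b c).Finite →
  AddGroup.FG W.toAffine.Point ∧ Finite {x : Sha W // 2 • x = 0} ∧
  Nat.card {z : ℤ × ℤ // z ∈ SelG a b c} =
    2 ^ Module.finrank ℤ W.toAffine.Point * (4 * Nat.card {x : Sha W // 2 • x = 0})

/-- SLX-RK4: the theorem of Rédei and Reichardt on the 4-rank. -/
def S_RK4 : Prop := ∀ (t : Bool) (r s : ZMod 2) (S : Finset ℕ) (m : ℤ), Ty t r s S m →
  ∀ (K : Type) [Field K] [NumberField K], Module.finrank ℚ K = 2 → (∃ z : K, z ^ 2 = (m : K)) →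
  Nat.card {c : ClassGroup (𝓞 K) // c ^ 4 = 1} * 2 =
    Nat.card {c : ClassGroup (𝓞 K) // c ^ 2 = 1} *
      (univ.filter fun y : {x : ℕ // x ∈ Vt t S} → ZMod 2 => IsLk (NS t r s S) y).card

end Pool.Agent.N637.SLX
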