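import Pool.Agent.N637.SLX.Stm2
import Pool.Agent.N916.GB.Tr
import Pool.Agent.Y212.RZ.Lag0

/-!
# Project SLX: the orders of the left kernel and of the radical
-/

set_option autoImplicit false
set_option linter.all false

open scoped Classical

namespace Pool.Agent.N637.SLX

open Finset Module
open Pool.Agent.N916.GB (z2 z2_add_self z2_sq)
open Pool.Agent.Y212.RZ (rad mem_rad even_rad)

section

variable {V : Type} [Fintype V]

/-- the left kernel -/
def lkS (N : V → V → ZMod 2) : Submodule (ZMod 2) (V → ZMod 2) where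
  carrier := {y | IsLk N y}
  add_mem' := by
    intro y z hy hz p
    have h := congrArg₂ (· + ·) (hy p) (hz p)
    simp only [add_zero] at h
    rw [← h, ← Finset.sum_add_distrib]
    refine Finset.sum_congr rfl fun q _ => ?_
    show (y q + z q) * N q p + (y p + z p) * N p q = _
    ring
  zero_mem' := by
    intro p
    refine Finset.sum_eq_zero fun q _ => ?_
    show (0 : ZMod 2) * N q p + 0 * N p q = 0
    ring
  smul_mem' := by
    intro c y hy p
    have h := congrArg (fun x => c * x) (hy p)
    simp only [mul_zero] at h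
    rw [← h, Finset.mul_sum]
    refine Finset.sum_congr rfl fun q _ => ?_
    show c * y q * N q p + c * y p * N p q = _
    ring

lemma mem_lkS {N : V → V → ZMod 2} {y : V → ZMod 2} : y ∈ lkS N ↔ IsLk N y := Iff.rfl

/-- the form -/
noncomputable def bfL (e : V → ZMod 2) : (V → ZMod 2) →ₗ[ZMod 2] (V → ZMod 2) →ₗ[ZMod 2] ZMod 2 :=
  LinearMap.mk₂ (ZMod 2) (Bf e)
    (by
      intro y y' z
      unfold Bf
      have h1 : ∑ p, e p * (y + y') p = ∑ p, e p * y p + ∑ p, e p * y' p := by
        rw [← Finset.sum_add_distrib]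
        exact Finset.sum_congr rfl fun p _ => by rw [Pi.add_apply, mul_add]
      have h2 : ∑ p, e p * (y + y') p * z p = ∑ p, e p * y p * z p + ∑ p, e p * y' p * z p := by
        rw [← Finset.sum_add_distrib]
        exact Finset.sum_congr rfl fun p _ => by rw [Pi.add_apply]; ring
      rw [h1, h2]
      ring)
    (by
      intro c y z
      unfold Bf
      have h1 : ∑ p, e p * (c • y) p = c * ∑ p, e p * y p := by
        rw [Finset.mul_sum]
        exact Finset.sum_congr rfl fun p _ => by rw [Pi.smul_apply, smul_eq_mul]; ring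
      have h2 : ∑ p, e p * (c • y) p * z p = c * ∑ p, e p * y p * z p := by
        rw [Finset.mul_sum]
        exact Finset.sum_congr rfl fun p _ => by rw [Pi.smul_apply, smul_eq_mul]; ring
      rw [h1, h2, smul_eq_mul]
      ring)
    (by
      intro y z z'
      unfold Bf
      have h1 : ∑ p, e p * (z + z') p = ∑ p, e p * z p + ∑ p, e p * z' p := by
        rw [← Finset.sum_add_distrib]
        exact Finset.sum_congr rfl fun p _ => by rw [Pi.add_apply, mul_add]
      have h2 : ∑ p, e p * y p * (z + z') p = ∑ p, e p * y p * z p + ∑ p, e p * y p * z' p := by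
        rw [← Finset.sum_add_distrib]
        exact Finset.sum_congr rfl fun p _ => by rw [Pi.add_apply]; ring
      rw [h1, h2]
      ring)
    (by
      intro c y z
      unfold Bf
      have h1 : ∑ p, e p * (c • z) p = c * ∑ p, e p * z p := by
        rw [Finset.mul_sum]
        exact Finset.sum_congr rfl fun p _ => by rw [Pi.smul_apply, smul_eq_mul]; ring
      have h2 : ∑ p, e p * y p * (c • z) p = c * ∑ p, e p * y p * z p := by
        rw [Finset.mul_sum]
        exact Finset.sum_congr rfl fun p _ => by rw [Pi.smul_apply, smul_eq_mul]; ring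
      rw [h1, h2, smul_eq_mul]
      ring)

lemma bf_self (e y : V → ZMod 2) : Bf e y y = 0 := by
  unfold Bf
  have h1 : ∑ p, e p * y p * y p = ∑ p, e p * y p :=
    Finset.sum_congr rfl fun p _ => by
      rcases z2 (y p) with h | h <;> rw [h] <;> ring
  rw [h1]
  rcases z2 (∑ p, e p * y p) with h | h <;> rw [h] <;> decide

lemma card_sub (M : Submodule (ZMod 2) (V → ZMod 2)) :
    (univ.filter fun y : V → ZMod 2 => y ∈ M).card = 2 ^ finrank (ZMod 2) M := by
  have h := Module.card_eq_pow_finrank (K := ZMod 2) (V := M)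
  rw [ZMod.card] at h
  rw [← h, Fintype.card_subtype]

/-- **The orders of the left kernel and of the radical.** -/
theorem crit_ex (N : V → V → ZMod 2) (e w : V → ZMod 2) (hw : w ≠ 0) (hr : IsRad N e w) :
    ∃ a b : ℕ, Crit N e a b ∧ b ≤ a ∧ Even (a + b) := by
  have hR : ∀ y, y ∈ rad (bfL e) (lkS N) ↔ IsRad N e y := fun y => Iff.rfl
  have h1 : (univ.filter fun y : V → ZMod 2 => IsLk N y).card = 2 ^ finrank (ZMod 2) (lkS N) := by
    rw [← card_sub]
    rfl
  have h2 : (univ.filter fun y : V → ZMod 2 => IsRad N e y).card =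
      2 ^ finrank (ZMod 2) (rad (bfL e) (lkS N)) := by
    rw [← card_sub]
    rfl
  have h3 : finrank (ZMod 2) (rad (bfL e) (lkS N)) ≤ finrank (ZMod 2) (lkS N) :=
    Submodule.finrank_mono fun y hy => hy.1
  have h4 : Even (finrank (ZMod 2) (lkS N) + finrank (ZMod 2) (rad (bfL e) (lkS N))) :=
    even_rad (bfL e) _ (lkS N) rfl fun p _ => bf_self e p
  have h5 : 0 < finrank (ZMod 2) (rad (bfL e) (lkS N)) := by
    rw [Module.finrank_pos_iff_exists_ne_zero]
    exact ⟨⟨w, (hR w).2 hr⟩, fun h => hw (congrArg Subtype.val h)⟩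
  obtain ⟨b, hb⟩ : ∃ b, finrank (ZMod 2) (rad (bfL e) (lkS N)) = b + 1 :=
    ⟨finrank (ZMod 2) (rad (bfL e) (lkS N)) - 1, by omega⟩
  obtain ⟨a, ha⟩ : ∃ a, finrank (ZMod 2) (lkS N) = a + 1 :=
    ⟨finrank (ZMod 2) (lkS N) - 1, by omega⟩
  rw [ha] at h1 h3 h4
  rw [hb] at h2 h3 h4
  refine ⟨a, b, ⟨h1, h2⟩, by omega, ?_⟩
  obtain ⟨k, hk⟩ := h4
  exact ⟨k - 1, by omega⟩

lemma crit_unique {N : V → V → ZMod 2} {e : V → ZMod 2} {a b a' b' : ℕ} (h : Crit N e a b)
    (h' : Crit N e a' b') : a = a' ∧ b = b' := by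
  have h1 := h.1.symm.trans h'.1
  have h2 := h.2.symm.trans h'.2
  have h3 := Nat.pow_right_injective (le_refl 2) h1
  have h4 := Nat.pow_right_injective (le_refl 2) h2
  omega

end

end Pool.Agent.N637.SLX
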