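import Pool.Agent.N637.SLX.Rad
import Pool.Agent.N637.SLX.Par

/-!
# Project SLX: assembly of the arithmetic parts
-/

set_option autoImplicit false
set_option linter.all false

open scoped Classical

namespace Pool.Agent.N637.SLX

open Finset Filter Topology NumberField
open Pool.Agent.N916.GB (Po Vt)
open Pool.Agent.TH841.SH (SelG LocC IsR)
open Pool.Agent.TH841.SH.D (Sha)
open Pool.Agent.N637.P21 (Cls)

/-- the arithmetic parts -/
structure HA : Prop where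
  LIN : S_LIN
  NEC : S_NEC
  SUF : S_SUF
  INJ : S_INJ
  SELQ : S_SELQ
  RK4 : S_RK4

lemma nc {α : Type} [Fintype α] (P : α → Prop) [DecidablePred P] :
    (univ.filter P).card = Nat.card {x // P x} := by
  rw [Nat.card_eq_fintype_card, Fintype.card_subtype]

lemma crit_nat {V : Type} [Fintype V] (N : V → V → ZMod 2) (e : V → ZMod 2) (a b : ℕ) :
    Crit N e a b ↔ Nat.card {y : V → ZMod 2 // IsLk N y} = 2 ^ (a + 1) ∧
      Nat.card {y : V → ZMod 2 // IsRad N e y} = 2 ^ (b + 1) := by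
  unfold Crit
  rw [nc, nc]

lemma lin_nat (h : S_LIN) {V : Type} [Fintype V] (N : V → V → ZMod 2) (e : V → ZMod 2) :
    Nat.card {z : (V → ZMod 2) × (V → ZMod 2) // IsLk N z.2 ∧ Rw N e z.1 z.2} =
      Nat.card {y : V → ZMod 2 // IsLk N y} * Nat.card {y : V → ZMod 2 // IsRad N e y} := by
  have h3 := h V N e
  rw [nc, nc, nc] at h3
  exact h3

/-- the order of the 2-Selmer group -/
theorem sel_card (H : HA) {t : Bool} {r s : ZMod 2} {S : Finset ℕ} {m : ℤ} (h : Ty t r s S m) :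
    (SelG 0 (9 * m) (-7 * m)).Finite ∧ Nat.card {z : ℤ × ℤ // z ∈ SelG 0 (9 * m) (-7 * m)} =
      Nat.card {y : {x : ℕ // x ∈ Vt t S} → ZMod 2 // IsLk (NS t r s S) y} *
      Nat.card {y : {x : ℕ // x ∈ Vt t S} → ZMod 2 // IsRad (NS t r s S) (ES t r s S) y} := by
  set V := {x : ℕ // x ∈ Vt t S} with hV
  let Z := {z : (V → ZMod 2) × (V → ZMod 2) // IsLk (NS t r s S) z.2 ∧
    Rw (NS t r s S) (ES t r s S) z.1 z.2}
  let φ : Z → {z : ℤ × ℤ // z ∈ SelG 0 (9 * m) (-7 * m)} := fun z =>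
    ⟨(dX t r s S z.1.1 (∑ q, ES t r s S q * z.1.2 q), dY t S z.1.2),
      H.SUF t r s S m h z.1.1 z.1.2 z.2.1 z.2.2⟩
  have hinj : Function.Injective φ := by
    rintro ⟨⟨x, y⟩, h1, h2⟩ ⟨⟨x', y'⟩, h1', h2'⟩ he
    have he' := congrArg Subtype.val he
    have e1 : dX t r s S x (∑ q, ES t r s S q * y q) = dX t r s S x' (∑ q, ES t r s S q * y' q) :=
      congrArg Prod.fst he'
    have e2 : dY t S y = dY t S y' := congrArg Prod.snd he'
    obtain ⟨e3, e4⟩ := H.INJ t r s S m h x y x' y' e1 e2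
    subst e3
    subst e4
    rfl
  have hsur : Function.Surjective φ := by
    rintro ⟨z, hz⟩
    obtain ⟨x, y, h1, h2, rfl⟩ := H.NEC t r s S m h z hz
    exact ⟨⟨(x, y), h1, h2⟩, rfl⟩
  have hcard := Nat.card_congr (Equiv.ofBijective φ ⟨hinj, hsur⟩)
  refine ⟨?_, ?_⟩
  · have : Finite {z : ℤ × ℤ // z ∈ SelG 0 (9 * m) (-7 * m)} := Finite.of_surjective φ hsur
    exact Set.toFinite _
  · rw [← hcard]
    exact lin_nat H.LIN (NS t r s S) (ES t r s S)

/-- **The rank and `Ш[2]` in terms of the criterion.** -/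
theorem main_sel (H : HA) {t : Bool} {r s : ZMod 2} {S : Finset ℕ} {m : ℤ} (h : Ty t r s S m)
    {W : WeierstrassCurve ℚ} (hW : IsR W ((0 : ℤ) : ℚ) ((9 * m : ℤ) : ℚ) ((-7 * m : ℤ) : ℚ))
    {a b : ℕ} (hc : GjS t r s a b S) : AddGroup.FG W.toAffine.Point ∧
    Finite {x : Sha W // 2 • x = 0} ∧
    2 ^ Module.finrank ℤ W.toAffine.Point * Nat.card {x : Sha W // 2 • x = 0} = 2 ^ (a + b) := by
  have hm : m ≠ 0 := h.cl.neg.ne
  obtain ⟨hf, hcard⟩ := sel_card H h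
  obtain ⟨h1, h2, h3⟩ := H.SELQ W 0 (9 * m) (-7 * m) (by omega) (by omega) (by omega) hW hf
  refine ⟨h1, h2, ?_⟩
  have hc' := (crit_nat _ _ _ _).1 hc
  rw [hcard, hc'.1, hc'.2] at h3
  have h4 : 4 * 2 ^ (a + b) = 4 * (2 ^ Module.finrank ℤ W.toAffine.Point *
      Nat.card {x : Sha W // 2 • x = 0}) := by
    calc 4 * 2 ^ (a + b) = 2 ^ (a + 1) * 2 ^ (b + 1) := by ring
      _ = _ := h3
      _ = _ := by ring
  omega

/-- **The 4-rank in terms of the criterion.** -/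
theorem main_rk4 (H : HA) {t : Bool} {r s : ZMod 2} {S : Finset ℕ} {m : ℤ} (h : Ty t r s S m)
    (K : Type) [Field K] [NumberField K] (h2 : Module.finrank ℚ K = 2)
    (hz : ∃ z : K, z ^ 2 = (m : K)) {a b : ℕ} (hc : GjS t r s a b S) :
    Nat.card {c : ClassGroup (𝓞 K) // c ^ 4 = 1} =
      2 ^ a * Nat.card {c : ClassGroup (𝓞 K) // c ^ 2 = 1} := by
  have h3 := H.RK4 t r s S m h K h2 hz
  have hc' := (crit_nat _ _ _ _).1 hc
  rw [nc, hc'.1] at h3
  have h4 : Nat.card {c : ClassGroup (𝓞 K) // c ^ 4 = 1} * 2 =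
      (2 ^ a * Nat.card {c : ClassGroup (𝓞 K) // c ^ 2 = 1}) * 2 := by
    rw [h3]
    ring
  omega

/-- the existence of the numbers -/
theorem gj_ex {t : Bool} {r s : ZMod 2} {S : Finset ℕ} {m : ℤ} (h : Ty t r s S m) :
    ∃ a b : ℕ, GjS t r s a b S ∧ b ≤ a ∧ Even (a + b) :=
  crit_ex _ _ _ (w_ne h) (rad_w h)

/-- a class group has elements of order one -/
lemma cl2_pos (K : Type) [Field K] [NumberField K] :
    0 < Nat.card {c : ClassGroup (𝓞 K) // c ^ 2 = 1} := by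
  have : Nonempty {c : ClassGroup (𝓞 K) // c ^ 2 = 1} := ⟨⟨1, one_pow 2⟩⟩
  exact Nat.card_pos

/-- the converse -/
theorem gj_iff (H : HA) {t : Bool} {r s : ZMod 2} {S : Finset ℕ} {m : ℤ} (h : Ty t r s S m)
    {W : WeierstrassCurve ℚ} (hW : IsR W ((0 : ℤ) : ℚ) ((9 * m : ℤ) : ℚ) ((-7 * m : ℤ) : ℚ))
    (K : Type) [Field K] [NumberField K] (h2 : Module.finrank ℚ K = 2)
    (hz : ∃ z : K, z ^ 2 = (m : K)) (a c : ℕ)
    (h4 : Nat.card {c : ClassGroup (𝓞 K) // c ^ 4 = 1} =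
      2 ^ a * Nat.card {c : ClassGroup (𝓞 K) // c ^ 2 = 1})
    (h5 : 2 ^ Module.finrank ℤ W.toAffine.Point * Nat.card {x : Sha W // 2 • x = 0} = 2 ^ c) :
    a ≤ c ∧ GjS t r s a (c - a) S := by
  obtain ⟨a', b', h6, h7, h8⟩ := gj_ex h
  have h9 := main_rk4 H h K h2 hz h6
  rw [h4] at h9
  have ha : a = a' := Nat.pow_right_injective (le_refl 2)
    (Nat.eq_of_mul_eq_mul_right (cl2_pos K) h9)
  obtain ⟨-, -, h10⟩ := main_sel H h hW h6
  rw [h5] at h10
  have hc : c = a' + b' := Nat.pow_right_injective (le_refl 2) h10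
  subst ha
  subst hc
  refine ⟨Nat.le_add_right _ _, ?_⟩
  rwa [Nat.add_sub_cancel_left]

end Pool.Agent.N637.SLX
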