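import Pool.Agent.N637.SLX.Stm

/-!
# Project SLX (helper637): the law is a probability law
-/

set_option autoImplicit false
set_option linter.unusedVariables false

open scoped Classical

namespace Pool.Agent.N637.SLX

open Finset Filter Topology

/-- the law of the pair (4-rank, Selmer rank) -/
noncomputable def pl (a : ℕ × ℕ) : ℝ := if a.1 ≤ a.2 then law a.1 (a.2 - a.1) else 0

/-- SLX-MASS: the law is a probability law. -/
def S_MASS : Prop := (∀ r j : ℕ, 0 ≤ law r j) ∧ HasSum pl 1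

/-- SLX-VAL: the first values; the odd values are zero. -/
def S_VAL : Prop :=
  law 0 0 = ∏' i : ℕ, (1 - (1 / 2 : ℝ) ^ (i + 1)) ∧
  law 1 1 = 2 * ∏' i : ℕ, (1 - (1 / 2 : ℝ) ^ (i + 1)) ∧
  law 2 0 = 2 / 9 * ∏' i : ℕ, (1 - (1 / 2 : ℝ) ^ (i + 1)) ∧
  law 2 2 = 2 / 9 * ∏' i : ℕ, (1 - (1 / 2 : ℝ) ^ (i + 1)) ∧
  (∀ r j : ℕ, r < j → law r j = 0) ∧
  ∀ r j : ℕ, ¬ Even (r + j) → law r j = 0

/-- SLX-SCH: from the densities of the points to the densities of all the sets. -/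
def S_SCH : Prop := ∀ (F : ℕ → Prop) (J : ℕ × ℕ → ℕ → Prop) (p : ℕ × ℕ → ℝ),
  (∀ n, F n → ∃! a, J a n) → (∀ a, 0 ≤ p a) → HasSum p 1 →
  (∀ a, Tendsto (fun X : ℕ => (((Icc 1 X).filter fun n => F n ∧ J a n).card : ℝ) /
    (((Icc 1 X).filter fun n => F n).card : ℝ)) atTop (𝓝 (p a))) →
  ∀ A : Set (ℕ × ℕ), Tendsto (fun X : ℕ => (((Icc 1 X).filter fun n => F n ∧
    ∃ a ∈ A, J a n).card : ℝ) / (((Icc 1 X).filter fun n => F n).card : ℝ)) atTop
    (𝓝 (∑' a : A, p a.1))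

/-- SLX-AVG: the mean of `2 ^ s` under the law is `4`. -/
def S_AVG : Prop := HasSum (fun a : ℕ × ℕ => (2 : ℝ) ^ a.2 * pl a) 4

end Pool.Agent.N637.SLX
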