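import Pool.Agent.N916.AM.Stm

/-!
# Project SLX (helper637): the joint law of the 4-rank of the class group of `ℚ(√-n)` and of the
# 2-Selmer group of the twist by `-n` of `X_0(21)`

Linear algebra over the field with two elements. `V` is the set of the ramified primes, `N q p` the symbol
of the prime discriminant of `p` at `q`, `e p` the symbol `(-7, -m)_p`. The left kernel `IsLk N` of the Rédei
matrix has order `2 ^ (r + 1)`, `r` the 4-rank; the 2-Selmer group of the twist has order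
`#(left kernel) * #(radical of the form Bf on it)`.
-/

set_option autoImplicit false
set_option linter.unusedVariables false

open scoped Classical

namespace Pool.Agent.N637.SLX

open Finset Filter Topology
open Pool.Agent.N916.GB (ps sx pt)

section form

variable {V : Type} [Fintype V]

/-- the left kernel of the Rédei matrix of the symbols `N` (the diagonal of `N` plays no role) -/
def IsLk (N : V → V → ZMod 2) (y : V → ZMod 2) : Prop :=
  ∀ p, ∑ q, (y q * N q p + y p * N p q) = 0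

/-- the alternating form `∑ e_p e_q y_p z_q` over the pairs `p ≠ q` -/
def Bf (e y z : V → ZMod 2) : ZMod 2 :=
  (∑ p, e p * y p) * (∑ p, e p * z p) + ∑ p, e p * y p * z p

/-- the radical of the form on the left kernel -/
def IsRad (N : V → V → ZMod 2) (e y : V → ZMod 2) : Prop :=
  IsLk N y ∧ ∀ z, IsLk N z → Bf e y z = 0

/-- the criterion: the left kernel has order `2 ^ (r + 1)`, the radical has order `2 ^ (j + 1)` -/
def Crit (N : V → V → ZMod 2) (e : V → ZMod 2) (r j : ℕ) : Prop :=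
  (univ.filter fun y : V → ZMod 2 => IsLk N y).card = 2 ^ (r + 1) ∧
  (univ.filter fun y : V → ZMod 2 => IsRad N e y).card = 2 ^ (j + 1)

/-- the vectors `y a` are linearly independent modulo `w` -/
def Ind {n : ℕ} (w : V → ZMod 2) (y : Fin n → V → ZMod 2) : Prop :=
  ∀ (c : Fin n → ZMod 2) (d : ZMod 2), (∀ p, ∑ a, c a * y a p = d * w p) → ∀ a, c a = 0

end form

/-- the matrix `M` has corank `j` -/
def Cor {n : ℕ} (M : Fin n → Fin n → ZMod 2) (j : ℕ) : Prop :=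
  (univ.filter fun x : Fin n → ZMod 2 => ∀ a, ∑ b, M a b * x b = 0).card = 2 ^ j

/-- the matrix `M` is alternating -/
def Alt {n : ℕ} (M : Fin n → Fin n → ZMod 2) : Prop := (∀ a, M a a = 0) ∧ ∀ a b, M a b = M b a

/-- the number of the alternating `r × r` matrices of corank `j` -/
noncomputable def alt (r j : ℕ) : ℕ :=
  (univ.filter fun M : Fin r → Fin r → ZMod 2 => Alt M ∧ Cor M j).card

/-- the order of `GL_r` over the field with two elements -/
def gl (r : ℕ) : ℕ := ∏ i ∈ range r, (2 ^ r - 2 ^ i)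

/-- the law: 4-rank `r` with the probability of Fouvry and Klüners, corank `j` of a random alternating
matrix -/
noncomputable def law (r j : ℕ) : ℝ :=
  (alt r j : ℝ) / 2 ^ (r * (r - 1) / 2) / (gl r : ℝ) * ∏' l : ℕ, (1 - (1 / 2 : ℝ) ^ (r + 1 + l))

/-- the number of the `(r + i)`-tuples in the left kernel, independent modulo `w`, such that the Gram matrix
of the first `r` vectors has corank `j` -/
noncomputable def Tn {V : Type} [Fintype V] (w e : V → ZMod 2) (N : V → V → ZMod 2) (r i j : ℕ) : ℕ :=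
  (univ.filter fun y : Fin (r + i) → V → ZMod 2 => (∀ a, IsLk N (y a)) ∧ Ind w y ∧
    Cor (fun a b : Fin r => Bf e (y (Fin.castAdd i a)) (y (Fin.castAdd i b))) j).card

/-- the product of the `2 ^ (s + 1) - 1`, `s < i` -/
noncomputable def qf (i : ℕ) : ℝ := ∏ s ∈ range i, ((2 : ℝ) ^ (s + 1) - 1)

/-- the coefficients -/
noncomputable def cf (r i : ℕ) : ℝ := 2 ^ (r + i) * (gl r : ℝ) * 2 ^ (r * i) * qf i

/-- SLX-INV: truncated inclusion and exclusion. -/
def S_INV : Prop := ∀ (V : Type) [Fintype V] (w e : V → ZMod 2) (N : V → V → ZMod 2), w ≠ 0 →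
  IsRad N e w → ∀ r j m : ℕ,
  |(if Crit N e r j then (1 : ℝ) else 0) -
    ∑ i ∈ range (m + 1), (-1) ^ i * (Tn w e N r i j : ℝ) / cf r i| ≤ (Tn w e N r (m + 1) j : ℝ) / cf r (m + 1)

/-- SLX-SER: the series of Euler. -/
def S_SER : Prop := ∀ r : ℕ, Tendsto (fun m : ℕ => ∑ i ∈ range (m + 1),
  (-1 : ℝ) ^ i / (2 ^ (r * i) * qf i)) atTop (𝓝 (∏' l : ℕ, (1 - (1 / 2 : ℝ) ^ (r + 1 + l))))

/-- the setting: `U` the small primes, `J` the large primes -/
structure Stg (U J : Type) [Fintype U] [Fintype J] [LinearOrder J] (w u e : U ⊕ J → ZMod 2)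
    (N : U ⊕ J → U ⊕ J → ZMod 2) (V₀ : ℕ) : Prop where
  hw : ∀ k, w (Sum.inr k) = 1
  hu : ∑ i, u i = 1
  hN : ∀ i j, i ≠ j → w i * N i j + w j * N j i = u i * u j
  hv : ∀ v, w (Sum.inl v) = 0 → u (Sum.inl v) = 1 ∧ ∀ v', w (Sum.inl v') = 0 → v = v'
  nd : ∀ (b : U → ZMod 2) (s : ZMod 2), ((∃ v, b v ≠ 0) ∨ s ≠ 0) →
    ∃ k, ∑ v, b v * N (Sum.inl v) (Sum.inr k) + s * u (Sum.inr k) ≠ 0
  rad : ∀ δ : J → J → ZMod 2, (∀ k l, δ k l = δ l k) → ∀ y, IsLk (pt N δ) y → Bf e w y = 0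
  c1 : V₀ * (Fintype.card U + 1) ≤
    (univ.filter fun k : J => u (Sum.inr k) = 1 ∧ e (Sum.inr k) = 0).card
  c2 : V₀ * (Fintype.card U + 1) ≤
    (univ.filter fun k : J => u (Sum.inr k) = 0 ∧ e (Sum.inr k) = 1).card

/-- SLX-LAJ: the law for a random completion. -/
def S_LAJ : Prop := ∀ (r j : ℕ) (ε : ℝ), 0 < ε → ∃ V₀ : ℕ, ∀ (U J : Type) [Fintype U] [Fintype J]
  [LinearOrder J] (w u e : U ⊕ J → ZMod 2) (N : U ⊕ J → U ⊕ J → ZMod 2), Stg U J w u e N V₀ →
  |((univ.filter fun σ : ps J → ZMod 2 => Crit (pt N (sx σ)) e r j).card : ℝ) / 2 ^ (ps J).card -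
    law r j| ≤ ε

/-- SLX-MOM: the moments. -/
def S_MOM : Prop := ∀ (r i j : ℕ) (ε : ℝ), 0 < ε → ∃ V₀ : ℕ, ∀ (U J : Type) [Fintype U] [Fintype J]
  [LinearOrder J] (w u e : U ⊕ J → ZMod 2) (N : U ⊕ J → U ⊕ J → ZMod 2), Stg U J w u e N V₀ →
  |(∑ σ : ps J → ZMod 2, (Tn w e (pt N (sx σ)) r i j : ℝ)) / 2 ^ (ps J).card -
    2 ^ (r + i) * (alt r j : ℝ) / 2 ^ (r * (r - 1) / 2)| ≤ ε

/-- the function takes all the values -/
def Srj {J : Type} {n : ℕ} (y : Fin n → J → ZMod 2) : Prop := ∀ x : Fin n → ZMod 2, ∃ k, ∀ a, y a k = x a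

/-- no nontrivial combination is constant -/
def Aff {J : Type} {n : ℕ} (y : Fin n → J → ZMod 2) : Prop :=
  ∀ (c : Fin n → ZMod 2) (d : ZMod 2), (∀ k, ∑ a, c a * y a k = d) → ∀ a, c a = 0

/-- the number of the solutions `σ` of the equations -/
noncomputable def Sol {J : Type} [Fintype J] [LinearOrder J] {n : ℕ} (y h : Fin n → J → ZMod 2) : ℕ :=
  (univ.filter fun σ : ps J → ZMod 2 => ∀ a k, ∑ l, (y a l + y a k) * sx σ l k = h a k).card

/-- the compatibility of the equations -/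
def Cmp {J : Type} [Fintype J] {n : ℕ} (y h : Fin n → J → ZMod 2) : Prop :=
  (∀ a, ∑ k, h a k = 0) ∧ ∀ a b, ∑ k, (y a k * h b k + y b k * h a k) = 0

/-- SLX-EQS: the number of the solutions. -/
def S_EQS : Prop := ∀ (n : ℕ) (J : Type) [Fintype J] [LinearOrder J] (y h : Fin n → J → ZMod 2),
  (¬ Cmp y h → Sol y h = 0) ∧
  (Srj y → Cmp y h → Sol y h * 2 ^ (n * Fintype.card J) = 2 ^ ((ps J).card + n + n * (n - 1) / 2)) ∧
  (Aff y → Sol y h * 2 ^ (n * Fintype.card J) ≤ 2 ^ ((ps J).card + n * 2 ^ n))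

/-- SLX-QC: equidistribution of the linear and quadratic forms. -/
def S_QC : Prop := ∀ (n t : ℕ) (J : Type) [Fintype J] (U : Type) [Fintype U] (g : U → J → ZMod 2)
  (c : Fin n → U → ZMod 2) (u e : J → ZMod 2) (κ μ : Fin n → ZMod 2)
  (L1 L2 : Fin n → Fin n → Fin n → J → ZMod 2) (α β : Fin n → Fin n → ZMod 2),
  (∀ b : U → ZMod 2, (∀ k, ∑ v, b v * g v k = 0) → ∀ v, b v = 0) →
  t ≤ (univ.filter fun k : J => u k = 1 ∧ e k = 0).card →
  t ≤ (univ.filter fun k : J => u k = 0 ∧ e k = 1).card →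
  |((univ.filter fun y : Fin n → J → ZMod 2 => (∀ a v, ∑ k, g v k * y a k = c a v) ∧
      (∀ a b, a < b → (μ a + ∑ k, u k * y a k) * (μ b + ∑ k, u k * y b k) +
        ∑ k, u k * y a k * y b k + ∑ x, ∑ k, L1 a b x k * y x k = α a b) ∧
      (∀ a b, a < b → (κ a + ∑ k, e k * y a k) * (κ b + ∑ k, e k * y b k) +
        ∑ k, e k * y a k * y b k + ∑ x, ∑ k, L2 a b x k * y x k = β a b)).card : ℝ) -
    2 ^ (n * Fintype.card J) / (2 ^ (n * Fintype.card U) * 2 ^ (n * (n - 1)))| ≤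
  2 ^ (n * Fintype.card J) * 2 ^ (2 * n) / 2 ^ t

section tuples

variable {U J : Type} [Fintype U] [Fintype J] [LinearOrder J]

/-- the equation at the large prime `k` without the random part -/
def hh (N : U ⊕ J → U ⊕ J → ZMod 2) (y : U ⊕ J → ZMod 2) (k : J) : ZMod 2 :=
  ∑ q, (y q * N q (Sum.inr k) + y (Sum.inr k) * N (Sum.inr k) q)

/-- the equations at the small primes -/
def Ueq (N : U ⊕ J → U ⊕ J → ZMod 2) (y : U ⊕ J → ZMod 2) : Prop :=
  ∀ v : U, ∑ q, (y q * N q (Sum.inl v) + y (Sum.inl v) * N (Sum.inl v) q) = 0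

/-- the compatibility of the equations at the large primes -/
def Cpt (N : U ⊕ J → U ⊕ J → ZMod 2) (y z : U ⊕ J → ZMod 2) : Prop :=
  ∑ k, (y (Sum.inr k) * hh N z k + z (Sum.inr k) * hh N y k) = 0

end tuples

/-- SLX-CNT: the number of the compatible tuples with a given Gram matrix. -/
def S_CNT : Prop := ∀ (n : ℕ) (ε : ℝ), 0 < ε → ∃ V₀ : ℕ, ∀ (U J : Type) [Fintype U] [Fintype J]
  [LinearOrder J] (w u e : U ⊕ J → ZMod 2) (N : U ⊕ J → U ⊕ J → ZMod 2), Stg U J w u e N V₀ →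
  ∀ β : Fin n → Fin n → ZMod 2,
  |((univ.filter fun y : Fin n → U ⊕ J → ZMod 2 => (∀ a, Ueq N (y a)) ∧ (∀ a b, Cpt N (y a) (y b)) ∧
      ∀ a b, a < b → Bf e (y a) (y b) = β a b).card : ℝ) -
    2 ^ (n * Fintype.card J) / 2 ^ (n * (n - 1))| ≤ ε * 2 ^ (n * Fintype.card J)

/-- SLX-REL: an element of the left kernel which is constant on `J` is `0` or `w`; the solutions in terms of
`Sol`. -/
def S_REL : Prop := ∀ (U J : Type) [Fintype U] [Fintype J]
  [LinearOrder J] (w u e : U ⊕ J → ZMod 2) (N : U ⊕ J → U ⊕ J → ZMod 2), Stg U J w u e N 1 →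
  (∀ δ : J → J → ZMod 2, (∀ k l, δ k l = δ l k) → w ≠ 0 ∧ IsRad (pt N δ) e w ∧
    ∀ (n : ℕ) (y : Fin n → U ⊕ J → ZMod 2), (∀ a, IsLk (pt N δ) (y a)) → Ind w y →
      Aff (fun a k => y a (Sum.inr k))) ∧
  (∀ (n : ℕ) (y : Fin n → U ⊕ J → ZMod 2), Srj (fun a k => y a (Sum.inr k)) → Ind w y) ∧
  ∀ (n : ℕ) (y : Fin n → U ⊕ J → ZMod 2),
    (univ.filter fun σ : ps J → ZMod 2 => ∀ a, IsLk (pt N (sx σ)) (y a)).card =
      if ∀ a, Ueq N (y a) then Sol (fun a k => y a (Sum.inr k)) (fun a k => hh N (y a) k) else 0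

end Pool.Agent.N637.SLX
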